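import Pool.Agent.R474.CE.StmQ

set_option autoImplicit false

namespace Pool.Agent.R474.CE.QWSUF

/-- the window as a letter -/
def lt (D : ℕ) (x : Str) (t : ℕ) : Fin (D + 1) → Fin (D + 1) → Bool :=
  fun i j => x.R (t + i) (t + j)

def Good (C : Set Str) (D : ℕ) (e : Fin (D + 1) → Fin (D + 1) → Bool) : Prop :=
  ∃ x ∈ C, x.n = D + 1 ∧ lt D x 0 = e

def Rel (C : Set Str) (D : ℕ) (e f : Fin (D + 1) → Fin (D + 1) → Bool) : Prop :=
  Good C D e ∧ Good C D f ∧ ∀ i j : Fin D, e i.succ j.succ = f i.castSucc j.castSucc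

theorem lt_eq_iff (D : ℕ) (x : Str) (s : ℕ) (y : Str) (t : ℕ) :
    lt D x s = lt D y t ↔ Win (D + 1) x s y t := by
  constructor
  · intro h i hi j hj
    have := congrFun (congrFun h ⟨i, hi⟩) ⟨j, hj⟩
    simpa [lt] using this
  · intro h
    funext i j
    exact h i i.2 j j.2

/-- words come from structures -/
theorem word (B : Set Str) (b D : ℕ) (hS : Std B b) (hD : b ≤ D) (hG : S_QGLUE)
    (w : ℕ → Fin (D + 1) → Fin (D + 1) → Bool) (h0 : Good (Av Pos B) D (w 0)) :
    ∀ n, 1 ≤ n → (∀ t, t + 1 < n → Rel (Av Pos B) D (w t) (w (t + 1))) →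
    ∃ x ∈ Av Pos B, x.n = n + D ∧ ∀ t < n, lt D x t = w t := by
  intro n hn
  induction n, hn using Nat.le_induction with
  | base =>
    intro _
    obtain ⟨x, hx, hxn, hxw⟩ := h0
    refine ⟨x, hx, by omega, ?_⟩
    intro t ht
    have : t = 0 := by omega
    subst this
    exact hxw
  | succ n hn ih =>
    intro hR
    obtain ⟨x, hx, hxn, hxw⟩ := ih (fun t ht => hR t (by omega))
    have hr := hR (n - 1) (by omega)
    have hn1 : n - 1 + 1 = n := by omega
    rw [hn1] at hr
    obtain ⟨_, ⟨z, hz, hzn, hzw⟩, hsh⟩ := hr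
    have hlast := hxw (n - 1) (by omega)
    have hWin : Win D x (x.n - D) z 0 := by
      intro s hs t ht
      have h1 := hsh ⟨s, hs⟩ ⟨t, ht⟩
      rw [← hlast, ← hzw] at h1
      simp only [lt, Fin.val_succ, Fin.val_castSucc] at h1
      have e1 : n - 1 + (s + 1) = x.n - D + s := by omega
      have e2 : n - 1 + (t + 1) = x.n - D + t := by omega
      rw [e1, e2] at h1
      exact h1
    obtain ⟨y, hy, hyn, hy1, hy2, _, _⟩ := hG B b hS D hD x hx z hz (by omega) (by omega) hWin
    refine ⟨y, hy, by omega, ?_⟩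
    intro t ht
    rcases Nat.lt_succ_iff_lt_or_eq.mp ht with h | h
    · rw [← hxw t h]
      funext i j
      have hi := i.2
      have hj := j.2
      have := hy1 (t + i) (by omega) (t + j) (by omega)
      simpa [lt] using this
    · subst h
      rw [← hzw]
      funext i j
      have hi := i.2
      have hj := j.2
      have := hy2 i (by omega) j (by omega)
      have e : x.n - D = t := by omega
      rw [e] at this
      simpa [lt] using this

end Pool.Agent.R474.CE.QWSUF

theorem Pool.Agent.R474.CE.QWSUF (hSTR : Pool.Agent.R474.CE.S_QSTR)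
    (hDET : Pool.Agent.R474.CE.S_QDET) (hRES : Pool.Agent.R474.CE.S_QRES)
    (hGLUE : Pool.Agent.R474.CE.S_QGLUE) : Pool.Agent.R474.CE.S_QWSUF := by
  open Pool.Agent.R474.CE Pool.Agent.R474.CE.QWSUF in
  intro B b D hS hD hfree hmk ⟨f, hfC, hanti⟩
  by_cases hinf : ∃ i0, ∀ i, i0 ≤ i → D + 1 ≤ (f i).n
  · obtain ⟨i0, hi0⟩ := hinf
    have hT : ∀ (n : ℕ) (w : ℕ → Fin (D + 1) → Fin (D + 1) → Bool),
        (∀ t, t + 1 < n → Rel (Av Pos B) D (w t) (w (t + 1))) → 2 ≤ n →
        (∀ t, 0 < t → t + 1 < n → w t ≠ w 0 ∧ w t ≠ w (n - 1)) → n ≤ TT D := by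
      intro n w hR hn hm
      obtain ⟨x, hx, hxn, hxw⟩ := word B b D hS hD hGLUE w (hR 0 (by omega)).1 n (by omega) hR
      by_contra hlt
      refine hmk (n + D) (by omega) ⟨x, hx, hxn, by omega, ?_⟩
      intro k hk hkn
      have hne := hm k hk (by omega)
      constructor
      · intro hw
        apply hne.1
        rw [← hxw k (by omega), ← hxw 0 (by omega)]
        exact (lt_eq_iff _ _ _ _ _).2 hw
      · intro hw
        apply hne.2
        have e : n + D - D - 1 = n - 1 := by omega
        rw [e] at hw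
        rw [← hxw k (by omega), ← hxw (n - 1) (by omega)]
        exact (lt_eq_iff _ _ _ _ _).2 hw
    obtain ⟨i, j, p, hij, hp, heq⟩ := hSTR (Fin (D + 1) → Fin (D + 1) → Bool)
      (Rel (Av Pos B) D) (TT D) hT (fun k => (f (i0 + k)).n - D) (fun k t => lt D (f (i0 + k)) t)
      (by
        intro k t ht
        have hk := hi0 (i0 + k) (by omega)
        have ht : t + 1 < (f (i0 + k)).n - D := ht
        refine ⟨⟨win (f (i0 + k)) t (D + 1), (hRES B).2 _ (hfC _) _ _ (by omega), rfl, ?_⟩,
          ⟨win (f (i0 + k)) (t + 1) (D + 1), (hRES B).2 _ (hfC _) _ _ (by omega), rfl, ?_⟩, ?_⟩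
        · funext a c
          simp [lt, win]
        · funext a c
          simp [lt, win]
        · intro a c
          simp only [lt, Fin.val_succ, Fin.val_castSucc]
          congr 1 <;> omega)
    have hp : p + ((f (i0 + i)).n - D) ≤ (f (i0 + j)).n - D := hp
    have heq : ∀ t < (f (i0 + i)).n - D, lt D (f (i0 + i)) t = lt D (f (i0 + j)) (p + t) := heq
    have hi := hi0 (i0 + i) (by omega)
    have hj := hi0 (i0 + j) (by omega)
    have hW : ∀ t, t < (f (i0 + i)).n - D → Win (D + 1) (f (i0 + i)) t (f (i0 + j)) (p + t) :=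
      fun t ht => (lt_eq_iff _ _ _ _ _).1 (heq t ht)
    have hdet := hDET B b D hS hD hfree (f (i0 + i)) (hfC _)
      (win (f (i0 + j)) p (f (i0 + i)).n) ((hRES B).2 _ (hfC _) _ _ (by omega)) rfl (by omega)
      (by
        intro k hk s hs t ht
        simp only [win]
        by_cases hkl : k < (f (i0 + i)).n - D
        · have := hW k hkl s (by omega) t (by omega)
          rw [this]
          congr 1 <;> omega
        · have := hW (k - 1) (by omega) (s + 1) (by omega) (t + 1) (by omega)
          have e1 : k - 1 + (s + 1) = k + s := by omega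
          have e2 : k - 1 + (t + 1) = k + t := by omega
          have e3 : p + (k - 1) + (s + 1) = p + (k + s) := by omega
          have e4 : p + (k - 1) + (t + 1) = p + (k + t) := by omega
          rw [e1, e2, e3, e4] at this
          exact this)
    refine hanti (i0 + i) (i0 + j) (by omega) ⟨p, by omega, ?_⟩
    intro s hs t ht
    have := hdet s hs t ht
    simpa [win] using this
  · push Not at hinf
    -- infinitely many small structures
    choose g hg using hinf
    let S : Set ℕ := {i | (f i).n ≤ D}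
    have hSinf : S.Infinite := by
      rw [Set.infinite_iff_exists_gt]
      intro a
      exact ⟨g (a + 1), by have := (hg (a + 1)).2; simp only [S, Set.mem_ofPred_eq]; omega,
        by have := (hg (a + 1)).1; omega⟩
    have : Infinite S := hSinf.to_subtype
    let F : S → Fin (D + 1) × (Fin (D + 1) → Fin (D + 1) → Bool) :=
      fun i => (⟨(f i.1).n, by have := i.2; simp only [S, Set.mem_ofPred_eq] at this; omega⟩,
        lt D (f i.1) 0)
    obtain ⟨i, j, hij, hF⟩ := Finite.exists_ne_map_eq_of_infinite F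
    have h1 : (f i.1).n = (f j.1).n := by
      have := congrArg (fun q => (q.1 : ℕ)) hF
      simpa [F] using this
    have h2 := congrArg (fun q => q.2) hF
    have h3 : lt D (f i.1) 0 = lt D (f j.1) 0 := by simpa [F] using h2
    have h4 := (lt_eq_iff _ _ _ _ _).1 h3
    have hiD : (f i.1).n ≤ D := i.2
    refine hanti i.1 j.1 (fun h => hij (Subtype.ext h)) ⟨0, by omega, ?_⟩
    intro s hs t ht
    have h5 := h4 s (by omega) t (by omega)
    rw [Nat.zero_add, Nat.zero_add] at h5
    rw [Nat.zero_add, Nat.zero_add]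
    exact h5
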